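import Pool.Agent.R225.HT.OneSided
import Pool.Agent.Y459.HI.Vs

set_option autoImplicit false

/-!
# Circumscribed polygons are determined by one sided asymptotic bounds for the eigenvalues

Let `P` be a convex polygon which has an inscribed circle, and all of whose angles are equal, except
possibly one which is larger (for instance: a regular polygon, a kite with three equal angles which
are at most the fourth, an isosceles triangle whose apex angle is at least `π / 3`). Let `Q` be any
convex polygon, with Dirichlet eigenvalues such that `limsup (λ_j(Q) - λ_j(P)) ≤ 0` and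
`λ_j(P) ≤ λ_j(Q) + o(√λ_j(Q))`. Then `Q` is congruent to `P`. In particular this is so if
`λ_j(Q) - λ_j(P) → 0`.
-/

open Filter Set
open Pool.Agent.W780.PG (IsConvexPolygon region ang)
open Pool.Agent.W703.GP (dirichletEigenvalue)
open Pool.Agent.Y289.HI (Circ)

namespace Pool.Agent.Results.MP_5b0138_an.AsymptoticRigidity

/-- `p` lists the vertices of the convex polygon `region p`, `Circ p` says that it has an inscribed
circle, `ang p j` is its angle at `p j`, and the interior of the convex hull of the finite set `S`,
if not empty, is an arbitrary convex polygon. -/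
theorem result (n : ℕ) (p : Fin (n + 3) → ℂ) (hp : IsConvexPolygon p) (hc : Circ p)
    (k : Fin (n + 3)) (α : ℝ) (h1 : ∀ j, j ≠ k → ang p j = α) (h2 : α ≤ ang p k)
    (S : Set ℂ) (hS : S.Finite) (hne : (interior (convexHull ℝ S)).Nonempty)
    (hup : ∀ ε : ℝ, 0 < ε → ∀ᶠ j : ℕ in atTop,
      dirichletEigenvalue (interior (convexHull ℝ S)) j ≤ dirichletEigenvalue (region p) j + ε)
    (hlow : ∀ ε : ℝ, 0 < ε → ∀ᶠ j : ℕ in atTop,
      dirichletEigenvalue (region p) j ≤ dirichletEigenvalue (interior (convexHull ℝ S)) j +
        ε * √(dirichletEigenvalue (interior (convexHull ℝ S)) j)) :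
    ∃ φ : ℂ ≃ᵢ ℂ, φ '' region p = interior (convexHull ℝ S) := by
  obtain ⟨m, q, hq, e⟩ := Pool.Agent.Y459.HI.vs S hS hne
  rw [← e] at hup hlow ⊢
  exact Pool.Agent.R225.HT.one_sided n m p hp hc k α h1 h2 q hq hup hlow

end Pool.Agent.Results.MP_5b0138_an.AsymptoticRigidity
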